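import Pool.Agent.H815.QC.Stm3

/-!
# Restriction of an embedding to a subgroup: index and first Betti number
-/

set_option autoImplicit false

namespace Pool.Agent.H870.QC

open Pool.Agent.H815.QC

/-- Isomorphic groups have the same first Betti number. -/
theorem b1_congr {L M : Type} [Group L] [Group M] (e : L ≃* M) : b1 L = b1 M := by
  unfold b1
  let f : (Additive M →+ ℚ) ≃ₗ[ℚ] (Additive L →+ ℚ) :=
    { toFun := fun φ => φ.comp e.toMonoidHom.toAdditive
      invFun := fun φ => φ.comp e.symm.toMonoidHom.toAdditive
      left_inv := by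
        intro φ
        ext x
        have h : e.toMonoidHom (e.symm.toMonoidHom x) = x := e.apply_symm_apply _
        exact congrArg (fun y : M => φ (Additive.ofMul y)) h
      right_inv := by
        intro φ
        ext x
        have h : e.symm.toMonoidHom (e.toMonoidHom x) = x := e.symm_apply_apply _
        exact congrArg (fun y : L => φ (Additive.ofMul y)) h
      map_add' := by
        intro φ ψ
        ext x
        rfl
      map_smul' := by
        intro c φ
        ext x
        rfl }
  exact f.symm.finrank_eq

theorem C1_proof : S_C1 := by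
  intro K Q F _ _ _ ι R hR hι hind
  obtain ⟨e⟩ := hR
  obtain ⟨g, hg⟩ : ∃ g : (R.comap ι) →* F, ∀ k, g k = e ⟨ι k, k.2⟩ := by
    refine ⟨e.toMonoidHom.comp ((ι.comp (R.comap ι).subtype).codRestrict R fun k => k.2),
      fun k => rfl⟩
  have hgi : Function.Injective g := by
    intro a b hab
    rw [hg, hg] at hab
    have h1 := e.injective hab
    have h2 : ι a = ι b := congrArg Subtype.val h1
    exact Subtype.ext (hι h2)
  have hrange : g.range = (ι.range.subgroupOf R).map e.toMonoidHom := by
    ext x
    constructor
    · rintro ⟨k, rfl⟩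
      refine ⟨⟨ι k, k.2⟩, ?_, (hg k).symm⟩
      exact ⟨k, rfl⟩
    · rintro ⟨y, ⟨k, hk⟩, rfl⟩
      have hk' : ι k = (y : Q) := hk
      refine ⟨⟨k, ?_⟩, ?_⟩
      · show ι k ∈ R
        rw [hk']
        exact y.2
      · rw [hg]
        exact congrArg e (Subtype.ext hk')
  have hidx : g.range.index = ι.range.relIndex R := by
    rw [hrange]
    exact Subgroup.index_map_equiv (ι.range.subgroupOf R) e
  refine ⟨g.range, ?_, hidx, b1_congr (MonoidHom.ofInjective hgi), ?_⟩
  · rw [hidx]
    have : ι.range.FiniteIndex := ⟨hind⟩
    have : (ι.range.subgroupOf R).FiniteIndex := inferInstance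
    exact Subgroup.FiniteIndex.index_ne_zero (H := ι.range.subgroupOf R)
  · intro hT m hm k hk hmk
    obtain ⟨n, hn⟩ := (MonoidHom.ofInjective hgi).surjective m
    have hn1 : (n : K) ≠ 1 := by
      intro h
      apply hm
      rw [← hn, show n = 1 from Subtype.ext h, map_one]
    apply hT n hn1 k hk
    have h2 : MonoidHom.ofInjective hgi (n ^ k) = 1 := by rw [map_pow, hn, hmk]
    have h3 : n ^ k = 1 := (MonoidHom.ofInjective hgi).injective (by rw [h2, map_one])
    exact congrArg Subtype.val h3

end Pool.Agent.H870.QC

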